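import Pool.Agent.H1.LD.D

/-!
LD/Lk, second part (helper25): `sE_hol`, `sY_hol`, `sE_inj`.
-/

set_option autoImplicit false

namespace LD1

open Complex Set Filter Topology MeasureTheory EW1 EX1 ND1
open scoped ComplexConjugate ContDiff Real

theorem Lk2_core {μ : ℂ} {f : ℕ → ℂ} {r s C : ℝ} (hr : 0 < r) (hrs : r < s) (hC : ∀ n, ‖f n‖ * s ^ n ≤ C) (e : ℂ) (he : ‖e‖ ≤ 1) :
    (Summable fun n : ℕ => 2 * C * r * (r / s) ^ n) ∧
    ∀ w : ℂ, ‖μ‖ < r * ‖w‖ → ‖w‖ < r → ∀ n : ℕ, ‖f n * (w ^ (n + 1) + e * (μ * w⁻¹) ^ (n + 1))‖ ≤ 2 * C * r * (r / s) ^ n := by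
  have hs : 0 < s := hr.trans hrs
  constructor
  · exact (summable_geometric_of_lt_one (by positivity) ((div_lt_one hs).2 hrs)).mul_left _
  · intro w h1 h2 n
    have hw : 0 < ‖w‖ := by
      by_contra hcon
      have : ‖w‖ = 0 := le_antisymm (not_lt.1 hcon) (norm_nonneg _)
      rw [this, mul_zero] at h1
      exact absurd h1 (not_lt.2 (norm_nonneg _))
    have h3 : ‖μ * w⁻¹‖ ≤ r := by
      rw [norm_mul, norm_inv, ← div_eq_mul_inv, div_le_iff₀ hw]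
      exact h1.le
    have h4 : ‖w ^ (n + 1) + e * (μ * w⁻¹) ^ (n + 1)‖ ≤ 2 * r ^ (n + 1) := by
      refine (norm_add_le _ _).trans ?_
      rw [norm_mul, norm_pow, norm_pow]
      have h5 : ‖w‖ ^ (n + 1) ≤ r ^ (n + 1) := by gcongr
      have h6 : ‖e‖ * ‖μ * w⁻¹‖ ^ (n + 1) ≤ 1 * r ^ (n + 1) := by gcongr
      linarith
    have h7 : ‖f n‖ ≤ C / s ^ n := by
      rw [le_div_iff₀ (by positivity)]
      exact hC n
    rw [norm_mul]
    calc ‖f n‖ * ‖w ^ (n + 1) + e * (μ * w⁻¹) ^ (n + 1)‖ ≤ C / s ^ n * (2 * r ^ (n + 1)) := by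
          have hC0 : 0 ≤ C / s ^ n := (norm_nonneg _).trans h7
          gcongr
      _ = 2 * C * r * (r / s) ^ n := by
          rw [div_pow, pow_succ]
          field_simp

theorem Lk2_open (μ : ℂ) (r : ℝ) : IsOpen {w : ℂ | ‖μ‖ < r * ‖w‖ ∧ ‖w‖ < r} :=
  (isOpen_lt continuous_const (continuous_const.mul continuous_norm)).inter (isOpen_lt continuous_norm continuous_const)

theorem Lk2_loc {μ : ℂ} {f : ℕ → ℂ} {r s C : ℝ} (hr : 0 < r) (hrs : r < s) (hC : ∀ n, ‖f n‖ * s ^ n ≤ C) (e : ℂ) (he : ‖e‖ ≤ 1) :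
    DifferentiableOn ℂ (fun w => ∑' n : ℕ, f n * (w ^ (n + 1) + e * (μ * w⁻¹) ^ (n + 1))) {w : ℂ | ‖μ‖ < r * ‖w‖ ∧ ‖w‖ < r} ∧
    ∀ w : ℂ, ‖μ‖ < r * ‖w‖ → ‖w‖ < r → Summable fun n : ℕ => f n * (w ^ (n + 1) + e * (μ * w⁻¹) ^ (n + 1)) := by
  obtain ⟨h1, h2⟩ := Lk2_core (μ := μ) hr hrs hC e he
  constructor
  · refine differentiableOn_tsum_of_summable_norm h1 (fun n => ?_) (Lk2_open μ r) fun n w hw => h2 w hw.1 hw.2 n
    intro w hw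
    have hw0 : w ≠ 0 := by
      rintro rfl
      have := hw.1
      rw [norm_zero, mul_zero] at this
      exact absurd this (not_lt.2 (norm_nonneg _))
    have h3 : DifferentiableAt ℂ (fun w : ℂ => f n * (w ^ (n + 1) + e * (μ * w⁻¹) ^ (n + 1))) w := by
      have h4 : DifferentiableAt ℂ (fun w : ℂ => w⁻¹) w := differentiableAt_inv hw0
      exact (((differentiableAt_id.pow _)).add (((h4.const_mul μ).pow _).const_mul e)).const_mul _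
    exact h3.differentiableWithinAt
  · intro w hw1 hw2
    exact Summable.of_norm_bounded h1 fun n => h2 w hw1 hw2 n

/-- a radius for a point -/
theorem Lk2_rad {x y t : ℝ} (hy : 0 < y) (ht1 : t ≤ 1) (h1 : x * t < y) (h2 : y * t < 1) : ∃ r s : ℝ, 0 < r ∧ r < s ∧ s * t < 1 ∧ x < r * y ∧ y < r := by
  set q : ℝ := max y (x / y) with hq
  have hq0 : 0 < q := lt_max_of_lt_left hy
  have hqt : q * t < 1 := by
    rcases max_cases y (x / y) with h | h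
    · rw [hq, h.1]
      exact h2
    · rw [hq, h.1, div_mul_eq_mul_div, div_lt_one hy]
      exact h1
  set δ : ℝ := (1 - q * t) / 3 with hδ
  have hδ0 : 0 < δ := by
    rw [hδ]
    linarith
  refine ⟨q + δ, q + 2 * δ, by linarith, by linarith, ?_, ?_, ?_⟩
  · have : 2 * δ * t ≤ 2 * δ * 1 := by gcongr
    have h3 : (q + 2 * δ) * t = q * t + 2 * δ * t := by ring
    rw [h3]
    rw [hδ] at this ⊢
    linarith
  · have h3 : x / y ≤ q := le_max_right _ _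
    rw [div_le_iff₀ hy] at h3
    have : 0 < δ * y := by positivity
    linarith [add_mul q δ y]
  · have : y ≤ q := le_max_left _ _
    linarith

theorem Lk2_gen {μ : ℂ} {t : ℝ} (ht1 : t ≤ 1) {f : ℕ → ℂ}
    (hf : ∀ s : ℝ, 0 < s → s * t < 1 → ∃ C : ℝ, ∀ n, ‖f n‖ * s ^ n ≤ C) (e : ℂ) (he : ‖e‖ ≤ 1) {w : ℂ}
    (hw0 : 0 < ‖w‖) (hw : ‖μ‖ * t < ‖w‖) (hw1 : ‖w‖ * t < 1) :
    DifferentiableAt ℂ (fun w => ∑' n : ℕ, f n * (w ^ (n + 1) + e * (μ * w⁻¹) ^ (n + 1))) w ∧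
    Summable fun n : ℕ => f n * (w ^ (n + 1) + e * (μ * w⁻¹) ^ (n + 1)) := by
  obtain ⟨r, s, hr, hrs, hst, h1, h2⟩ := Lk2_rad hw0 ht1 hw hw1
  obtain ⟨C, hC⟩ := hf s (hr.trans hrs) hst
  obtain ⟨h3, h4⟩ := Lk2_loc (μ := μ) hr hrs hC e he
  exact ⟨h3.differentiableAt ((Lk2_open μ r).mem_nhds ⟨h1, h2⟩), h4 w h1 h2⟩

theorem Lk2_sE_hol {μ : ℂ} (_hμ : ‖μ‖ < 1) {f : ℕ → ℂ} (hf : Gr f) : DifferentiableOn ℂ (sE μ f) {w | ‖μ‖ < ‖w‖ ∧ ‖w‖ < 1} ∧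
    ∀ w : ℂ, ‖μ‖ < ‖w‖ → ‖w‖ < 1 → Summable (fun n : ℕ => f n * (w ^ (n + 1) - (μ * w⁻¹) ^ (n + 1))) := by
  have e1 : ∀ (w : ℂ) (n : ℕ), w ^ (n + 1) + (-1) * (μ * w⁻¹) ^ (n + 1) = w ^ (n + 1) - (μ * w⁻¹) ^ (n + 1) := fun w n => by ring
  have key : ∀ w : ℂ, ‖μ‖ < ‖w‖ → ‖w‖ < 1 → DifferentiableAt ℂ (sE μ f) w ∧
      Summable (fun n : ℕ => f n * (w ^ (n + 1) - (μ * w⁻¹) ^ (n + 1))) := by
    intro w h1 h2
    have h3 := Lk2_gen (μ := μ) (t := 1) le_rfl (f := f) (fun s hs hs1 => hf s hs (by simpa using hs1)) (-1) (by simp)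
      (w := w) ((norm_nonneg _).trans_lt h1) (by simpa using h1) (by simpa using h2)
    simp only [e1] at h3
    exact h3
  exact ⟨fun w hw => (key w hw.1 hw.2).1.differentiableWithinAt, fun w h1 h2 => (key w h1 h2).2⟩

theorem Lk2_sY_hol {μ : ℂ} (hμ : ‖μ‖ < 1) (y : ℂ) {g : ℕ → ℂ} (hg : Dc μ g) :
    DifferentiableOn ℂ (sY μ y g) {w | ‖μ‖ ^ 2 < ‖w‖ ∧ ‖w‖ * ‖μ‖ < 1} ∧ DifferentiableOn ℂ (sE μ g) {w | ‖μ‖ ^ 2 < ‖w‖ ∧ ‖w‖ * ‖μ‖ < 1} ∧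
    ∀ w : ℂ, ‖μ‖ ^ 2 < ‖w‖ → ‖w‖ * ‖μ‖ < 1 → Summable (fun n : ℕ => g n * (w ^ (n + 1) + (μ * w⁻¹) ^ (n + 1))) ∧
      Summable (fun n : ℕ => g n * (w ^ (n + 1) - (μ * w⁻¹) ^ (n + 1))) := by
  have e1 : ∀ (w : ℂ) (n : ℕ), w ^ (n + 1) + (-1) * (μ * w⁻¹) ^ (n + 1) = w ^ (n + 1) - (μ * w⁻¹) ^ (n + 1) := fun w n => by ring
  have e2 : ∀ (w : ℂ) (n : ℕ), w ^ (n + 1) + 1 * (μ * w⁻¹) ^ (n + 1) = w ^ (n + 1) + (μ * w⁻¹) ^ (n + 1) := fun w n => by ring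
  have key : ∀ w : ℂ, ‖μ‖ ^ 2 < ‖w‖ → ‖w‖ * ‖μ‖ < 1 → (DifferentiableAt ℂ (sE μ g) w ∧
      Summable (fun n : ℕ => g n * (w ^ (n + 1) - (μ * w⁻¹) ^ (n + 1)))) ∧
      DifferentiableAt ℂ (fun w => ∑' n : ℕ, g n * (w ^ (n + 1) + (μ * w⁻¹) ^ (n + 1))) w ∧
      Summable (fun n : ℕ => g n * (w ^ (n + 1) + (μ * w⁻¹) ^ (n + 1))) := by
    intro w h1 h2
    have hw0 : 0 < ‖w‖ := (by positivity : (0 : ℝ) ≤ ‖μ‖ ^ 2).trans_lt h1
    have h3 := Lk2_gen (μ := μ) (t := ‖μ‖) hμ.le (f := g) hg (-1) (by simp)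
      (w := w) hw0 (by rwa [← sq]) h2
    have h4 := Lk2_gen (μ := μ) (t := ‖μ‖) hμ.le (f := g) hg 1 (by simp)
      (w := w) hw0 (by rwa [← sq]) h2
    simp only [e1] at h3
    simp only [e2] at h4
    exact ⟨h3, h4⟩
  refine ⟨fun w hw => ?_, fun w hw => (key w hw.1 hw.2).1.1.differentiableWithinAt, fun w h1 h2 => ⟨(key w h1 h2).2.2, (key w h1 h2).1.2⟩⟩
  exact ((key w hw.1 hw.2).2.1.const_add y).differentiableWithinAt

theorem Lk2_pr_ne {ρ : ℝ} (hρ : 0 < ρ) (t : ℝ) : pr ρ t ≠ 0 := by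
  unfold pr
  exact mul_ne_zero (by exact_mod_cast hρ.ne') (exp_ne_zero _)

theorem Lk2_pr_norm {ρ : ℝ} (hρ : 0 < ρ) (t : ℝ) : ‖pr ρ t‖ = ρ := by
  unfold pr
  rw [norm_mul, Complex.norm_exp_ofReal_mul_I, Complex.norm_real, Real.norm_eq_abs, abs_of_pos hρ, mul_one]

theorem Lk2_pr_cont (ρ : ℝ) : Continuous (pr ρ) := by
  unfold pr
  fun_prop

theorem Lk2_int {ρ : ℝ} (hρ : 0 < ρ) {j : ℤ} (hj : j ≠ 0) : ∫ t in (0 : ℝ)..(2 * π), pr ρ t ^ j = 0 := by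
  have h1 := circleIntegral.integral_sub_zpow_of_ne (n := j - 1) (by omega) (0 : ℂ) 0 ρ
  unfold circleIntegral at h1
  have h2 : (fun θ : ℝ => deriv (circleMap 0 ρ) θ • (fun z : ℂ => (z - 0) ^ (j - 1)) (circleMap 0 ρ θ)) = fun θ => I * pr ρ θ ^ j := by
    funext θ
    have e : circleMap 0 ρ θ = pr ρ θ := by
      unfold circleMap pr
      ring
    simp only [deriv_circleMap, e, sub_zero, smul_eq_mul]
    rw [zpow_sub_one₀ (Lk2_pr_ne hρ θ)]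
    have := Lk2_pr_ne hρ θ
    field_simp
  rw [h2, intervalIntegral.integral_const_mul] at h1
  exact (mul_eq_zero.1 h1).resolve_left I_ne_zero

theorem Lk2_int0 (ρ : ℝ) : ∫ t in (0 : ℝ)..(2 * π), pr ρ t ^ (0 : ℤ) = 2 * π := by
  simp

theorem Lk2_sE_inj {μ : ℂ} (hμ : ‖μ‖ < 1) {f : ℕ → ℂ} (hf : Gr f) (h : ∀ w : ℂ, ‖μ‖ < ‖w‖ → ‖w‖ < 1 → sE μ f w = 0) (n : ℕ) : f n = 0 := by
  set ρ : ℝ := (1 + ‖μ‖) / 2 with hρd
  have hμ0 := norm_nonneg μ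
  have hρ : 0 < ρ := by rw [hρd]; linarith
  have h1 : ‖μ‖ < ρ := by rw [hρd]; linarith
  have h2 : ρ < 1 := by rw [hρd]; linarith
  obtain ⟨r, s, hr, hrs, hst, h3, h4⟩ := Lk2_rad (t := 1) hρ le_rfl (by simpa using h1) (by simpa using h2)
  obtain ⟨C, hC⟩ := hf s (hr.trans hrs) (by simpa using hst)
  obtain ⟨h5, h6⟩ := Lk2_core (μ := μ) hr hrs hC (-1) (by simp)
  have e1 : ∀ (w : ℂ) (n : ℕ), w ^ (n + 1) + (-1) * (μ * w⁻¹) ^ (n + 1) = w ^ (n + 1) - (μ * w⁻¹) ^ (n + 1) := fun w n => by ring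
  simp only [e1] at h6
  have hpc := Lk2_pr_cont ρ
  have hpi : Continuous fun t => (pr ρ t)⁻¹ := hpc.inv₀ (Lk2_pr_ne hρ)
  have hpz : ∀ j : ℤ, Continuous fun t => pr ρ t ^ j := fun j => hpc.zpow₀ _ fun t => Or.inl (Lk2_pr_ne hρ t)
  have key := intervalIntegral.hasSum_integral_of_dominated_convergence (μ := volume) (a := 0) (b := 2 * π)
    (F := fun (k : ℕ) (t : ℝ) => f k * (pr ρ t ^ (k + 1) - (μ * (pr ρ t)⁻¹) ^ (k + 1)) * pr ρ t ^ (-((n : ℤ) + 1)))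
    (f := fun _ => (0 : ℂ)) (fun k _ => 2 * C * r * (r / s) ^ k * ρ ^ (-((n : ℤ) + 1))) ?_ ?_ ?_ ?_ ?_
  · have h7 : ∀ k : ℕ, ∫ t in (0 : ℝ)..(2 * π), f k * (pr ρ t ^ (k + 1) - (μ * (pr ρ t)⁻¹) ^ (k + 1)) * pr ρ t ^ (-((n : ℤ) + 1)) =
        if k = n then f n * (2 * π) else 0 := by
      intro k
      have h8 : (fun t : ℝ => f k * (pr ρ t ^ (k + 1) - (μ * (pr ρ t)⁻¹) ^ (k + 1)) * pr ρ t ^ (-((n : ℤ) + 1))) = fun t : ℝ =>
          f k * pr ρ t ^ ((k : ℤ) - n) - f k * μ ^ (k + 1) * pr ρ t ^ (-((k : ℤ) + n + 2)) := by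
        funext t
        have hp := Lk2_pr_ne hρ t
        have a1 : pr ρ t ^ ((k : ℤ) - n) = pr ρ t ^ (k + 1) * pr ρ t ^ (-((n : ℤ) + 1)) := by
          rw [← zpow_natCast, ← zpow_add₀ hp]
          congr 1
          omega
        have a2 : pr ρ t ^ (-((k : ℤ) + n + 2)) = (pr ρ t)⁻¹ ^ (k + 1) * pr ρ t ^ (-((n : ℤ) + 1)) := by
          rw [inv_pow, ← zpow_natCast, ← zpow_neg, ← zpow_add₀ hp]
          exact congrArg _ (by omega)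
        rw [a1, a2, mul_pow]
        ring
      have hi : ∀ (x : ℂ) (j : ℤ), IntervalIntegrable (fun t : ℝ => x * pr ρ t ^ j) volume 0 (2 * π) := fun x j =>
        (continuous_const.mul (hpz j)).intervalIntegrable _ _
      rw [h8, intervalIntegral.integral_sub (hi _ _) (hi _ _), intervalIntegral.integral_const_mul, intervalIntegral.integral_const_mul,
        Lk2_int hρ (j := -((k : ℤ) + n + 2)) (by omega), mul_zero, sub_zero]
      by_cases hk : k = n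
      · subst hk
        rw [sub_self, Lk2_int0, if_pos rfl]
      · rw [Lk2_int hρ (j := (k : ℤ) - n) (by omega), mul_zero, if_neg hk]
    simp only [h7] at key
    rw [intervalIntegral.integral_zero] at key
    have h9 : HasSum (fun k : ℕ => if k = n then f n * (2 * π : ℂ) else 0) (f n * (2 * π)) := by
      have := hasSum_single (f := fun k : ℕ => if k = n then f n * (2 * π : ℂ) else 0) n (fun b hb => by simp [hb])
      simpa using this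
    have h10 := key.unique h9
    have hπ : (2 * π : ℂ) ≠ 0 := by
      have : (π : ℂ) ≠ 0 := by exact_mod_cast Real.pi_ne_zero
      exact mul_ne_zero two_ne_zero this
    exact (mul_eq_zero.1 h10.symm).resolve_right hπ
  · intro k
    exact ((continuous_const.mul ((hpc.pow _).sub ((continuous_const.mul hpi).pow _))).mul (hpz _)).aestronglyMeasurable
  · intro k
    refine Eventually.of_forall fun t _ => ?_
    rw [norm_mul, norm_zpow, Lk2_pr_norm hρ]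
    have := h6 (pr ρ t) (by rw [Lk2_pr_norm hρ]; exact h3) (by rw [Lk2_pr_norm hρ]; exact h4) k
    gcongr
  · exact Eventually.of_forall fun t _ => h5.mul_right _
  · exact intervalIntegrable_const
  · refine Eventually.of_forall fun t _ => ?_
    have h7 := (Lk2_sE_hol hμ hf).2 (pr ρ t) (by rw [Lk2_pr_norm hρ]; exact h1) (by rw [Lk2_pr_norm hρ]; exact h2)
    have h8 := h7.hasSum.mul_right (pr ρ t ^ (-((n : ℤ) + 1)))
    have h9 : ∑' n : ℕ, f n * (pr ρ t ^ (n + 1) - (μ * (pr ρ t)⁻¹) ^ (n + 1)) = 0 :=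
      h (pr ρ t) (by rw [Lk2_pr_norm hρ]; exact h1) (by rw [Lk2_pr_norm hρ]; exact h2)
    rw [h9, zero_mul] at h8
    exact h8

end LD1
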