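import Pool.Agent.H1.LD.D
import Pool.Agent.H1.EW.Fb
import Pool.Agent.H25.LD.Lk2

/-!
LD/Lk, third part (helper25): `czP`.
-/

set_option autoImplicit false

namespace LD1

open Complex Set Filter Topology MeasureTheory EW1 EX1 ND1
open scoped ComplexConjugate ContDiff Real

/-- summability of a sequence with `c (k + 2) = q c k` -/
theorem Lk3_sum2 {c : ℕ → ℝ} {q : ℝ} (hq0 : 0 ≤ q) (hq : q < 1) (h : ∀ k, c (k + 2) = q * c k) : Summable c := by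
  have h0 : ∀ m : ℕ, c (2 * m) = q ^ m * c 0 := by
    intro m
    induction m with
    | zero => simp
    | succ m ih =>
      rw [show 2 * (m + 1) = 2 * m + 2 by ring, h, ih, pow_succ]
      ring
  have h1 : ∀ m : ℕ, c (2 * m + 1) = q ^ m * c 1 := by
    intro m
    induction m with
    | zero => simp
    | succ m ih =>
      rw [show 2 * (m + 1) + 1 = 2 * m + 1 + 2 by ring, h, ih, pow_succ]
      ring
  have s0 : Summable fun m : ℕ => c (2 * m) := by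
    simp only [h0]
    exact (summable_geometric_of_lt_one hq0 hq).mul_right _
  have s1 : Summable fun m : ℕ => c (2 * m + 1) := by
    simp only [h1]
    exact (summable_geometric_of_lt_one hq0 hq).mul_right _
  exact (s0.hasSum.even_add_odd s1.hasSum).summable

theorem Lk3_bd {μ : ℂ} {ρ : ℝ} (hρ : 0 < ρ) (h1 : ‖μ‖ < ρ ^ 2) (a : ℝ) (γ β : ℂ) :
    Summable fun k : ℕ => ‖Pc μ a γ β k‖ * (ρ⁻¹) ^ k := by
  rw [← summable_nat_add_iff 1]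
  have hq : ‖μ‖ * (ρ⁻¹) ^ 2 < 1 := by
    rw [inv_pow, ← div_eq_mul_inv, div_lt_one (by positivity)]
    exact h1
  refine Lk3_sum2 (q := ‖μ‖ * (ρ⁻¹) ^ 2) (by positivity) hq fun k => ?_
  have e : Pc μ a γ β (k + 2 + 1) = μ * Pc μ a γ β (k + 1) := by
    rw [show k + 2 + 1 = k + 3 by ring, Pc]
  rw [e, norm_mul]
  ring

theorem Lk3_ser {μ : ℂ} {ρ : ℝ} (hρ : 0 < ρ) (h1 : ‖μ‖ < ρ ^ 2) (a : ℝ) (γ β : ℂ) {w : ℂ} (hw : ‖w‖ = ρ) :
    HasSum (fun k : ℕ => Pc μ a γ β k * (w⁻¹) ^ k * pw μ w) (zt μ a γ β w) := by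
  have hw0 : w ≠ 0 := by
    intro h
    rw [h, norm_zero] at hw
    exact hρ.ne hw
  have hs : Summable fun k : ℕ => Pc μ a γ β k * (w⁻¹) ^ k := by
    refine Summable.of_norm ((Lk3_bd hρ h1 a γ β).congr fun k => ?_)
    rw [norm_mul, norm_pow, norm_inv, hw]
  have h2 := hs.hasSum
  set s := ∑' k : ℕ, Pc μ a γ β k * (w⁻¹) ^ k with hsd
  have h3 : HasSum (fun k : ℕ => Pc μ a γ β (k + 3) * (w⁻¹) ^ (k + 3)) (s - ∑ i ∈ Finset.range 3, Pc μ a γ β i * (w⁻¹) ^ i) :=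
    (hasSum_nat_add_iff' 3).2 h2
  have h4 : HasSum (fun k : ℕ => Pc μ a γ β (k + 1) * (w⁻¹) ^ (k + 1)) (s - ∑ i ∈ Finset.range 1, Pc μ a γ β i * (w⁻¹) ^ i) :=
    (hasSum_nat_add_iff' 1).2 h2
  have h5 : HasSum (fun k : ℕ => Pc μ a γ β (k + 3) * (w⁻¹) ^ (k + 3)) (μ * (w⁻¹) ^ 2 * (s - ∑ i ∈ Finset.range 1, Pc μ a γ β i * (w⁻¹) ^ i)) := by
    refine (h4.mul_left (μ * (w⁻¹) ^ 2)).congr_fun fun k => ?_
    rw [Pc]
    ring
  have h6 := h3.unique h5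
  have p0 : Pc μ a γ β 0 = a := by rw [Pc]
  have p1 : Pc μ a γ β 1 = γ := by rw [Pc]
  have p2 : Pc μ a γ β 2 = 2 * a * μ + β := by rw [Pc]
  simp only [Finset.sum_range_succ, Finset.sum_range_zero, p0, p1, p2, pow_zero, pow_one, mul_one, zero_add] at h6
  have h7 : s * pw μ w = zt μ a γ β w := by
    unfold pw zt
    have : s * (w - μ * w⁻¹) = w * (s - μ * (w⁻¹) ^ 2 * s) := by
      field_simp
    rw [this]
    have h8 : s - μ * (w⁻¹) ^ 2 * s = (a : ℂ) + γ * w⁻¹ + (2 * a * μ + β) * (w⁻¹) ^ 2 - μ * (w⁻¹) ^ 2 * a := by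
      linear_combination h6
    rw [h8]
    field_simp
    ring
  rw [← h7]
  exact h2.mul_right _

theorem Lk3_mem {μ : ℂ} {ρ : ℝ} (hρ : 0 < ρ) (h1 : ‖μ‖ < ρ ^ 2) (hρ1 : ρ < 1) {w : ℂ} (hw : ‖w‖ = ρ) : zw μ w ∈ Dp 0 1 μ 1 := by
  have h2 := crv (norm_nonneg μ) h1 hρ hρ1 (c := 0) (r := 1) one_pos (μ := μ) le_rfl hw
  have e : (0 : ℂ) + (1 : ℝ) * (w + μ * w⁻¹) = zw μ w := by
    unfold zw
    push_cast
    ring
  rw [e] at h2
  show ‖vv 0 1 μ (zw μ w)‖ < 1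
  refine h2.trans_lt ?_
  have hμ0 := norm_nonneg μ
  rw [div_lt_one (by positivity)]
  have h3 : ‖μ‖ < ρ := by nlinarith
  nlinarith [mul_pos (sub_pos.2 h3) (sub_pos.2 hρ1)]

theorem Lk3_fc (μ : ℂ) (F : ℂ → ℂ) (ρ : ℝ) (N : ℕ) :
    fc 0 1 μ F ρ N = (∫ t in (0 : ℝ)..(2 * π), F (zw μ (pr ρ t)) * pw μ (pr ρ t) * (pr ρ t)⁻¹ ^ N) / (2 * π) := by
  unfold fc zw pw pr
  congr 1
  congr 1
  funext t
  push_cast
  simp only [zero_add, one_mul]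

theorem Lk3_czP {μ : ℂ} (_hμ : ‖μ‖ < 1) {ρ : ℝ} (hρ : 0 < ρ) (h1 : ‖μ‖ < ρ ^ 2) (hρ1 : ρ < 1) {F : ℂ → ℂ}
    (hF : DifferentiableOn ℂ F (Dp 0 1 μ 1)) (a : ℝ) (γ β : ℂ) (n : ℕ) :
    cz ρ (fun x => zt μ a γ β x * F (zw μ x)) ((n : ℤ) + 1) = ∑' k : ℕ, Pc μ a γ β k * fc 0 1 μ F ρ (n + k + 1) := by
  have hpc := Lk2_pr_cont ρ
  have hpn := Lk2_pr_norm hρ
  have hp0 := Lk2_pr_ne hρ
  have hpi : Continuous fun t => (pr ρ t)⁻¹ := hpc.inv₀ hp0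
  have hzc : Continuous fun t => zw μ (pr ρ t) := by
    unfold zw
    exact hpc.add (continuous_const.mul hpi)
  have hFc : Continuous fun t => F (zw μ (pr ρ t)) := hF.continuousOn.comp_continuous hzc fun t => Lk3_mem hρ h1 hρ1 (hpn t)
  have hwc : Continuous fun t => pw μ (pr ρ t) := by
    unfold pw
    exact hpc.sub (continuous_const.mul hpi)
  have key := intervalIntegral.hasSum_integral_of_dominated_convergence (μ := volume) (a := 0) (b := 2 * π)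
    (F := fun (k : ℕ) (t : ℝ) => Pc μ a γ β k * (F (zw μ (pr ρ t)) * pw μ (pr ρ t) * (pr ρ t)⁻¹ ^ (n + k + 1)))
    (f := fun t => zt μ a γ β (pr ρ t) * F (zw μ (pr ρ t)) * pr ρ t ^ (-((n : ℤ) + 1)))
    (fun k t => ‖Pc μ a γ β k‖ * (ρ⁻¹) ^ k * (‖F (zw μ (pr ρ t)) * pw μ (pr ρ t)‖ * (ρ⁻¹) ^ (n + 1))) ?_ ?_ ?_ ?_ ?_
  · have h2 := key.div_const (2 * π : ℂ)
    have h3 : (fun k : ℕ => (∫ t in (0 : ℝ)..(2 * π), Pc μ a γ β k * (F (zw μ (pr ρ t)) * pw μ (pr ρ t) * (pr ρ t)⁻¹ ^ (n + k + 1))) / (2 * π : ℂ)) =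
        fun k : ℕ => Pc μ a γ β k * fc 0 1 μ F ρ (n + k + 1) := by
      funext k
      rw [intervalIntegral.integral_const_mul, Lk3_fc, mul_div_assoc]
    rw [h3] at h2
    rw [h2.tsum_eq]
    rfl
  · intro k
    exact (continuous_const.mul ((hFc.mul hwc).mul (hpi.pow _))).aestronglyMeasurable
  · intro k
    refine Eventually.of_forall fun t _ => le_of_eq ?_
    rw [norm_mul, norm_mul (F (zw μ (pr ρ t)) * pw μ (pr ρ t)), norm_pow, norm_inv, hpn, show n + k + 1 = k + (n + 1) by ring, pow_add]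
    ring
  · exact Eventually.of_forall fun t _ => (Lk3_bd hρ h1 a γ β).mul_right _
  · have e : (fun t : ℝ => ∑' k : ℕ, ‖Pc μ a γ β k‖ * (ρ⁻¹) ^ k * (‖F (zw μ (pr ρ t)) * pw μ (pr ρ t)‖ * (ρ⁻¹) ^ (n + 1))) = fun t : ℝ =>
        (∑' k : ℕ, ‖Pc μ a γ β k‖ * (ρ⁻¹) ^ k) * (‖F (zw μ (pr ρ t)) * pw μ (pr ρ t)‖ * (ρ⁻¹) ^ (n + 1)) := by
      funext t
      rw [tsum_mul_right]
    rw [e]
    exact (continuous_const.mul ((hFc.mul hwc).norm.mul continuous_const)).intervalIntegrable _ _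
  · refine Eventually.of_forall fun t _ => ?_
    have h2 := (Lk3_ser hρ h1 a γ β (hpn t)).mul_right (F (zw μ (pr ρ t)) * pr ρ t ^ (-((n : ℤ) + 1)))
    have e : zt μ a γ β (pr ρ t) * F (zw μ (pr ρ t)) * pr ρ t ^ (-((n : ℤ) + 1)) =
        zt μ a γ β (pr ρ t) * (F (zw μ (pr ρ t)) * pr ρ t ^ (-((n : ℤ) + 1))) := by ring
    rw [e]
    refine h2.congr_fun fun k => ?_
    have e2 : pr ρ t ^ (-((n : ℤ) + 1)) = (pr ρ t)⁻¹ ^ (n + 1) := by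
      rw [zpow_neg, inv_pow]
      norm_cast
    rw [e2, show n + k + 1 = k + (n + 1) by ring, pow_add]
    ring

end LD1
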