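import Pool.Agent.H1.LD.D

/-!
LD/Ln, auxiliary (helper25): zeros of `Uw`; division by a polynomial near the unit circle; the sector inequality.
-/

set_option autoImplicit false

namespace LD1

open Complex Set Filter Topology MeasureTheory EW1 EX1 ND1
open scoped ComplexConjugate ContDiff Real

/-- the polynomial `2 x² Uw x` -/
noncomputable def Ln1_P (μ : ℂ) (a : ℝ) (γ β : ℂ) : Polynomial ℂ :=
  Polynomial.C (conj β) * Polynomial.X ^ 4 + Polynomial.C (conj γ - conj μ * γ) * Polynomial.X ^ 3 +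
    Polynomial.C (2 * ((a * (1 - ‖μ‖ ^ 2) - (conj μ * β).re : ℝ) : ℂ)) * Polynomial.X ^ 2 + Polynomial.C (γ - μ * conj γ) * Polynomial.X +
    Polynomial.C β

theorem Ln1_eval (μ : ℂ) (a : ℝ) (γ β : ℂ) {x : ℂ} (hx : x ≠ 0) : (Ln1_P μ a γ β).eval x = 2 * x ^ 2 * Uw μ a γ β x := by
  unfold Ln1_P Uw
  simp only [Polynomial.eval_add, Polynomial.eval_mul, Polynomial.eval_C, Polynomial.eval_pow, Polynomial.eval_X]
  field_simp

theorem Ln1_coef {c4 c3 c2 c1 c0 : ℂ} (h : Polynomial.C c4 * Polynomial.X ^ 4 + Polynomial.C c3 * Polynomial.X ^ 3 +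
    Polynomial.C c2 * Polynomial.X ^ 2 + Polynomial.C c1 * Polynomial.X + Polynomial.C c0 = (0 : Polynomial ℂ)) : c0 = 0 ∧ c1 = 0 ∧ c2 = 0 := by
  have h0 := congrArg (fun p : Polynomial ℂ => p.coeff 0) h
  have h1 := congrArg (fun p : Polynomial ℂ => p.coeff 1) h
  have h2 := congrArg (fun p : Polynomial ℂ => p.coeff 2) h
  simp [Polynomial.coeff_X, Polynomial.coeff_C, Polynomial.coeff_X_pow] at h0 h1 h2
  exact ⟨h0, h1, h2⟩

theorem Ln1_ne {μ : ℂ} (hμ : ‖μ‖ < 1) {a : ℝ} {γ β : ℂ} (h3 : ‖γ‖ + |a| + ‖β‖ = 1) : Ln1_P μ a γ β ≠ 0 := by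
  intro h
  obtain ⟨h0, h1, h2⟩ := Ln1_coef h
  subst h0
  have hγ : γ = 0 := by
    rw [sub_eq_zero] at h1
    have h4 := congrArg norm h1
    rw [norm_mul, RCLike.norm_conj] at h4
    by_contra hne
    have : 0 < ‖γ‖ := norm_pos_iff.2 hne
    nlinarith
  subst hγ
  have ha : a = 0 := by
    have h5 : ((a * (1 - ‖μ‖ ^ 2) - (conj μ * 0).re : ℝ) : ℂ) = 0 := (mul_eq_zero.1 h2).resolve_left two_ne_zero
    have h6 : a * (1 - ‖μ‖ ^ 2) - (conj μ * 0).re = 0 := by exact_mod_cast h5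
    rw [mul_zero, Complex.zero_re, sub_zero] at h6
    have h7 : 0 < 1 - ‖μ‖ ^ 2 := by nlinarith [norm_nonneg μ]
    exact (mul_eq_zero.1 h6).resolve_right h7.ne'
  subst ha
  simp at h3

theorem Ln1_Uw_ne {μ : ℂ} (hμ : ‖μ‖ < 1) {a : ℝ} {γ β : ℂ} (h3 : ‖γ‖ + |a| + ‖β‖ = 1) : {x : ℂ | x ≠ 0 ∧ Uw μ a γ β x = 0}.Finite := by
  refine (Ln1_P μ a γ β).roots.toFinset.finite_toSet.subset fun x hx => ?_
  rw [Finset.mem_coe, Multiset.mem_toFinset, Polynomial.mem_roots (Ln1_ne hμ h3), Polynomial.IsRoot, Ln1_eval μ a γ β hx.1, hx.2, mul_zero]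

/-- no isolated points on the unit circle -/
theorem Ln1_dense {z : ℂ} (hz : ‖z‖ = 1) {Z : Set ℂ} (hZ : Z.Finite) : z ∈ closure ({x : ℂ | ‖x‖ = 1} \ Z) := by
  have h1 : Tendsto (fun t : ℝ => z * exp (t * I)) (𝓝[≠] 0) (𝓝 z) := by
    have : Continuous fun t : ℝ => z * exp (t * I) := by fun_prop
    have h2 := this.tendsto 0
    simp only [Complex.ofReal_zero, zero_mul, Complex.exp_zero, mul_one] at h2
    exact h2.mono_left nhdsWithin_le_nhds
  have h2 : ∀ᶠ t : ℝ in 𝓝[≠] 0, z * exp (t * I) ∉ Z := by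
    have h3 : ∀ y ∈ Z, ∀ᶠ t : ℝ in 𝓝[≠] 0, z * exp (t * I) ≠ y := by
      intro y _
      by_cases hy : y = z
      · have h4 : ∀ᶠ t : ℝ in 𝓝[≠] 0, |t| < 1 := by
          have : ∀ᶠ t : ℝ in 𝓝 0, |t| < 1 := by
            have h5 : Tendsto (fun t : ℝ => |t|) (𝓝 0) (𝓝 |0|) := continuous_abs.tendsto 0
            rw [abs_zero] at h5
            exact h5.eventually_lt_const one_pos
          exact this.filter_mono nhdsWithin_le_nhds
        filter_upwards [h4, self_mem_nhdsWithin] with t ht ht0 he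
        rw [hy] at he
        have hz0 : z ≠ 0 := by
          intro h
          rw [h, norm_zero] at hz
          exact zero_ne_one hz
        have h5 : exp (t * I) = 1 := mul_left_cancel₀ hz0 (by rw [he, mul_one])
        rw [Complex.exp_eq_one_iff] at h5
        obtain ⟨n, hn⟩ := h5
        have h6 : (t : ℂ) = n * (2 * π) := by
          have : (t : ℂ) * I = (n * (2 * π)) * I := by rw [hn]; ring
          exact mul_right_cancel₀ I_ne_zero this
        have h7 : t = n * (2 * π) := by exact_mod_cast h6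
        have hn0 : n = 0 := by
          by_contra hne
          have h8 : (1 : ℝ) ≤ |(n : ℝ)| := by
            rw [← Int.cast_abs]
            exact_mod_cast Int.one_le_abs hne
          rw [h7, abs_mul, abs_of_pos Real.two_pi_pos] at ht
          nlinarith [Real.pi_gt_three]
        rw [hn0] at h7
        simp at h7
        exact ht0 h7
      · exact h1.eventually_ne (Ne.symm hy)
    have := (Set.Finite.eventually_all hZ).2 h3
    filter_upwards [this] with t ht hmem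
    exact ht _ hmem rfl
  refine mem_closure_of_tendsto h1 ?_
  filter_upwards [h2] with t ht
  refine ⟨?_, ht⟩
  show ‖z * exp (t * I)‖ = 1
  rw [norm_mul, hz, Complex.norm_exp_ofReal_mul_I, one_mul]

/-- division by a polynomial near the unit circle -/
theorem Ln1_div {C : ℝ} : ∀ (n : ℕ) (P : Polynomial ℂ), P.natDegree = n → P ≠ 0 → ∀ (V : Set ℂ), IsOpen V → {x : ℂ | ‖x‖ = 1} ⊆ V → ∀ N : ℂ → ℂ,
    DifferentiableOn ℂ N V → (∀ x, ‖x‖ = 1 → ‖N x‖ ≤ C * ‖P.eval x‖) →
    ∃ (V' : Set ℂ) (R : ℂ → ℂ), IsOpen V' ∧ V' ⊆ V ∧ {x : ℂ | ‖x‖ = 1} ⊆ V' ∧ DifferentiableOn ℂ R V' ∧ ∀ x ∈ V', N x = P.eval x * R x := by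
  intro n
  induction n with
  | zero =>
    intro P hP hP0 V hV hsV N hN hb
    obtain ⟨c, rfl⟩ : ∃ c, P = Polynomial.C c := ⟨_, Polynomial.eq_C_of_natDegree_eq_zero hP⟩
    have hc : c ≠ 0 := by
      intro h
      rw [h, Polynomial.C_0] at hP0
      exact hP0 rfl
    refine ⟨V, fun x => N x / c, hV, subset_rfl, hsV, hN.div_const c, fun x _ => ?_⟩
    rw [Polynomial.eval_C]
    field_simp
  | succ n ih =>
    intro P hP hP0 V hV hsV N hN hb
    have hdeg : P.degree ≠ 0 := by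
      intro h
      have := Polynomial.natDegree_eq_zero_iff_degree_le_zero.2 h.le
      omega
    obtain ⟨z, hz⟩ := IsAlgClosed.exists_root P hdeg
    obtain ⟨Q, hQ⟩ := Polynomial.dvd_iff_isRoot.2 hz
    have hQ0 : Q ≠ 0 := by
      rintro rfl
      rw [mul_zero] at hQ
      exact hP0 hQ
    have hQn : Q.natDegree = n := by
      have h1 := hP
      rw [hQ, Polynomial.natDegree_mul (Polynomial.X_sub_C_ne_zero z) hQ0, Polynomial.natDegree_X_sub_C] at h1
      omega
    have hPe : ∀ x, P.eval x = (x - z) * Q.eval x := by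
      intro x
      rw [hQ, Polynomial.eval_mul, Polynomial.eval_sub, Polynomial.eval_X, Polynomial.eval_C]
    by_cases hz1 : ‖z‖ = 1
    · have hNz : N z = 0 := by
        have := hb z hz1
        rw [hPe, sub_self, zero_mul, norm_zero, mul_zero] at this
        exact norm_le_zero_iff.1 this
      have hzV : V ∈ 𝓝 z := hV.mem_nhds (hsV hz1)
      have hN1 : DifferentiableOn ℂ (dslope N z) V := (Complex.differentiableOn_dslope hzV).2 hN
      have hne : ∀ x, x ≠ z → dslope N z x * (x - z) = N x := by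
        intro x hx
        rw [dslope_of_ne _ hx, slope_def_field, hNz, sub_zero]
        have : x - z ≠ 0 := sub_ne_zero.2 hx
        field_simp
      have hb1 : ∀ x, ‖x‖ = 1 → x ≠ z → ‖dslope N z x‖ ≤ C * ‖Q.eval x‖ := by
        intro x hx hxz
        have h1 := hb x hx
        rw [hPe, ← hne x hxz, norm_mul, norm_mul] at h1
        have h2 : 0 < ‖x - z‖ := norm_pos_iff.2 (sub_ne_zero.2 hxz)
        have h3 : ‖dslope N z x‖ * ‖x - z‖ ≤ C * ‖Q.eval x‖ * ‖x - z‖ := by linarith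
        exact le_of_mul_le_mul_right h3 h2
      have hb2 : ∀ x, ‖x‖ = 1 → ‖dslope N z x‖ ≤ C * ‖Q.eval x‖ := by
        intro x hx
        by_cases hxz : x = z
        · have h1 := Ln1_dense hx (Set.finite_singleton z)
          have hcl : closure ({x : ℂ | ‖x‖ = 1} \ {z}) ⊆ {x : ℂ | ‖x‖ = 1} := by
            refine closure_minimal sdiff_subset ?_
            exact isClosed_eq continuous_norm continuous_const
          have hco : ContinuousOn (fun x => ‖dslope N z x‖) (closure ({x : ℂ | ‖x‖ = 1} \ {z})) :=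
            (hN1.continuousOn.mono (hcl.trans hsV)).norm
          have hco2 : ContinuousOn (fun x => C * ‖Q.eval x‖) (closure ({x : ℂ | ‖x‖ = 1} \ {z})) :=
            (continuous_const.mul Q.continuous.norm).continuousOn
          exact le_on_closure (fun y hy => hb1 y hy.1 (by simpa using hy.2)) hco hco2 h1
        · exact hb1 x hx hxz
      obtain ⟨V', R, h1, h2, h3, h4, h5⟩ := ih Q hQn hQ0 V hV hsV (dslope N z) hN1 hb2
      refine ⟨V', R, h1, h2, h3, h4, fun x hx => ?_⟩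
      by_cases hxz : x = z
      · rw [hPe, hxz, sub_self, zero_mul, zero_mul, hNz]
      · rw [← hne x hxz, h5 x hx, hPe]
        ring
    · have hV1 : IsOpen (V \ {z}) := hV.sdiff isClosed_singleton
      have hsV1 : {x : ℂ | ‖x‖ = 1} ⊆ V \ {z} := by
        intro x hx
        refine ⟨hsV hx, ?_⟩
        rintro rfl
        exact hz1 hx
      have hN1 : DifferentiableOn ℂ (fun x => N x / (x - z)) (V \ {z}) := by
        refine (hN.mono sdiff_subset).div (by fun_prop) ?_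
        intro x hx
        exact sub_ne_zero.2 hx.2
      have hb1 : ∀ x, ‖x‖ = 1 → ‖N x / (x - z)‖ ≤ C * ‖Q.eval x‖ := by
        intro x hx
        have hxz : x ≠ z := (hsV1 hx).2
        have h2 : 0 < ‖x - z‖ := norm_pos_iff.2 (sub_ne_zero.2 hxz)
        have h1 := hb x hx
        rw [hPe, norm_mul] at h1
        rw [norm_div, div_le_iff₀ h2]
        linarith
      obtain ⟨V', R, h1, h2, h3, h4, h5⟩ := ih Q hQn hQ0 (V \ {z}) hV1 hsV1 _ hN1 hb1
      refine ⟨V', R, h1, h2.trans sdiff_subset, h3, h4, fun x hx => ?_⟩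
      have hxz : x ≠ z := (h2 hx).2
      have h6 := h5 x hx
      have h7 : x - z ≠ 0 := sub_ne_zero.2 hxz
      rw [div_eq_iff h7] at h6
      rw [h6, hPe]
      ring

/-- the sector inequality -/
theorem Ln1_sector {l : ℝ} (hl : |l| < 1) {τ : ℝ} (hτ : 0 ≤ τ) {v : ℂ} (hv : ‖v‖ = 1) {t : ℝ} (ht : 0 < t) :
    (1 - |l|) / (1 + |l|) * t ≤ ‖(τ : ℂ) * (1 + l * v) ^ 2 + t‖ := by
  obtain ⟨s, hs⟩ : ∃ s : ℂ, s = 1 + l * v := ⟨_, rfl⟩
  rw [← hs]
  have h1 : ‖(l : ℂ) * v‖ = |l| := by rw [norm_mul, hv, Complex.norm_real, Real.norm_eq_abs, mul_one]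
  have hre : 1 - |l| ≤ s.re := by
    have h2 := Complex.abs_re_le_norm ((l : ℂ) * v)
    rw [h1, abs_le] at h2
    rw [hs, Complex.add_re, Complex.one_re]
    linarith [h2.1]
  have hn : ‖s‖ ≤ 1 + |l| := by
    rw [hs]
    refine (norm_add_le _ _).trans ?_
    rw [h1, norm_one]
  have hsre : 0 < s.re := by linarith
  have hs0 : 0 < ‖s‖ := hsre.trans_le ((le_abs_self _).trans (Complex.abs_re_le_norm s))
  have hsne : s ≠ 0 := norm_pos_iff.1 hs0
  have h3 : (τ : ℂ) * s ^ 2 + t = s * ((τ : ℂ) * s + t * s⁻¹) := by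
    field_simp
  rw [h3, norm_mul]
  have h4 : t * (s.re / ‖s‖ ^ 2) ≤ ‖(τ : ℂ) * s + t * s⁻¹‖ := by
    refine le_trans ?_ ((le_abs_self _).trans (Complex.abs_re_le_norm _))
    rw [Complex.add_re, Complex.re_ofReal_mul, Complex.re_ofReal_mul, Complex.inv_re, Complex.normSq_eq_norm_sq]
    have : 0 ≤ τ * s.re := by positivity
    linarith
  calc (1 - |l|) / (1 + |l|) * t ≤ s.re / ‖s‖ * t := by
        have h5 : (1 - |l|) / (1 + |l|) ≤ s.re / ‖s‖ := div_le_div₀ hsre.le hre hs0 hn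
        gcongr
    _ = ‖s‖ * (t * (s.re / ‖s‖ ^ 2)) := by
        field_simp
    _ ≤ ‖s‖ * ‖(τ : ℂ) * s + t * s⁻¹‖ := by gcongr

end LD1
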