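import Pool.Agent.H25.LD.Lk2
import Pool.Agent.H25.LD.Ln1

/-!
LD/Ln, auxiliary (helper25): the function `R = Y T/(2 Uw)` near the unit circle and its boundary values.
-/

set_option autoImplicit false

namespace LD1

open Complex Set Filter Topology MeasureTheory EW1 EX1 ND1
open scoped ComplexConjugate ContDiff Real

theorem Ln2_conj {x : ℂ} (hx : ‖x‖ = 1) : conj x = x⁻¹ := by
  have hx0 : x ≠ 0 := by
    intro h
    rw [h, norm_zero] at hx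
    exact zero_ne_one hx
  have h1 : x * conj x = 1 := by
    rw [Complex.mul_conj, Complex.normSq_eq_norm_sq, hx]
    norm_num
  field_simp
  linear_combination h1

theorem Ln2_real (μ : ℂ) (a : ℝ) (γ β : ℂ) {x : ℂ} (hx : ‖x‖ = 1) : Uw μ a γ β x = ((Uw μ a γ β x).re : ℂ) := by
  have h1 := Ln2_conj hx
  have h2 : conj (Uw μ a γ β x) = Uw μ a γ β x := by
    unfold Uw
    simp only [map_add, map_mul, map_div₀, map_sub, map_pow, Complex.conj_conj, map_inv₀, Complex.conj_ofReal, h1, inv_inv, map_ofNat]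
    ring
  exact (Complex.conj_eq_iff_re.1 h2).symm

theorem Ln2_T {μ y : ℂ} {g : ℕ → ℂ} {l : ℝ} {x : ℂ} (hx : ‖x‖ = 1) :
    TT μ y g l x = ((‖pw μ x‖ ^ 2 : ℝ) : ℂ) * (conj (sY μ y g x) - l * sY μ y g x) := by
  have h1 := Ln2_conj hx
  have h2 : ps μ x = conj (pw μ x) := by
    unfold ps pw
    rw [map_sub, map_mul, map_inv₀, h1, inv_inv]
  have h3 : (conj x)⁻¹ = x := by rw [h1, inv_inv]
  unfold TT
  rw [h3, h2, Complex.mul_conj, Complex.normSq_eq_norm_sq]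

theorem Ln2_pw {μ : ℂ} {x : ℂ} (hx : ‖x‖ = 1) : 1 - ‖μ‖ ≤ ‖pw μ x‖ := by
  unfold pw
  have h1 := norm_sub_norm_le x (μ * x⁻¹)
  rw [norm_mul, norm_inv, hx, inv_one, mul_one] at h1
  exact h1

theorem Ln2_Y {μ y : ℂ} {g : ℕ → ℂ} {l : ℝ} {x : ℂ} (hx : ‖x‖ = 1) :
    (((1 - l ^ 2) * ‖pw μ x‖ ^ 2 : ℝ) : ℂ) * sY μ y g x = conj (TT μ y g l x) + l * TT μ y g l x := by
  rw [Ln2_T hx, map_mul, map_sub, map_mul, Complex.conj_conj, Complex.conj_ofReal, Complex.conj_ofReal]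
  push_cast
  ring

theorem Ln2_YT {μ : ℂ} (hμ : ‖μ‖ < 1) {y : ℂ} {g : ℕ → ℂ} {l : ℝ} (hl : |l| < 1) {x : ℂ} (hx : ‖x‖ = 1) :
    sY μ y g x * TT μ y g l x = (((‖TT μ y g l x‖ ^ 2 : ℝ) : ℂ) + l * TT μ y g l x ^ 2) / (((1 - l ^ 2) * ‖pw μ x‖ ^ 2 : ℝ) : ℂ) := by
  have h1 : 0 < (1 - l ^ 2) * ‖pw μ x‖ ^ 2 := by
    have h2 : 0 < ‖pw μ x‖ := lt_of_lt_of_le (by linarith) (Ln2_pw hx)
    have h3 : l ^ 2 < 1 := by
      rw [← sq_abs]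
      nlinarith [abs_nonneg l]
    have : 0 < 1 - l ^ 2 := by linarith
    positivity
  have h2 : (((1 - l ^ 2) * ‖pw μ x‖ ^ 2 : ℝ) : ℂ) ≠ 0 := by exact_mod_cast h1.ne'
  rw [eq_div_iff h2]
  have h3 := Ln2_Y (μ := μ) (y := y) (g := g) (l := l) hx
  have h4 : ((‖TT μ y g l x‖ ^ 2 : ℝ) : ℂ) = TT μ y g l x * conj (TT μ y g l x) := by
    rw [Complex.mul_conj, Complex.normSq_eq_norm_sq]
  rw [h4]
  linear_combination (TT μ y g l x) * h3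

/-- the bound of `Y T` on the circle -/
theorem Ln2_YTle {μ : ℂ} (hμ : ‖μ‖ < 1) {y : ℂ} {g : ℕ → ℂ} {l : ℝ} (hl : |l| < 1) {x : ℂ} (hx : ‖x‖ = 1) :
    ‖sY μ y g x * TT μ y g l x‖ ≤ 2 * ‖TT μ y g l x‖ ^ 2 / ((1 - l ^ 2) * (1 - ‖μ‖) ^ 2) := by
  have h3 : l ^ 2 < 1 := by
    rw [← sq_abs]
    nlinarith [abs_nonneg l]
  have h4 : 0 < 1 - l ^ 2 := by linarith
  have h5 : 0 < 1 - ‖μ‖ := by linarith
  have h6 := Ln2_pw (μ := μ) hx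
  rw [Ln2_YT hμ hl hx, norm_div, Complex.norm_real, Real.norm_eq_abs, abs_of_nonneg (by positivity)]
  have h7 : ‖((‖TT μ y g l x‖ ^ 2 : ℝ) : ℂ) + l * TT μ y g l x ^ 2‖ ≤ 2 * ‖TT μ y g l x‖ ^ 2 := by
    refine (norm_add_le _ _).trans ?_
    rw [Complex.norm_real, Real.norm_eq_abs, abs_of_nonneg (by positivity), norm_mul, norm_pow, Complex.norm_real, Real.norm_eq_abs]
    have : |l| * ‖TT μ y g l x‖ ^ 2 ≤ 1 * ‖TT μ y g l x‖ ^ 2 := by gcongr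
    linarith
  have h8 : (1 - ‖μ‖) ^ 2 ≤ ‖pw μ x‖ ^ 2 := by gcongr
  have h9 : (1 - l ^ 2) * (1 - ‖μ‖) ^ 2 ≤ (1 - l ^ 2) * ‖pw μ x‖ ^ 2 := by gcongr
  exact div_le_div₀ (by positivity) h7 (by positivity) h9

theorem Ln2_star {F : ℂ → ℂ} {x : ℂ} (hF : DifferentiableAt ℂ F (conj x)⁻¹) (hx : x ≠ 0) :
    DifferentiableAt ℂ (fun x => conj (F (conj x)⁻¹)) x := by
  have e : (conj x)⁻¹ = conj x⁻¹ := by rw [map_inv₀]
  rw [e] at hF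
  have h1 : DifferentiableAt ℂ (fun z => conj (F (conj z))) x⁻¹ := by
    have h2 := hF.hasDerivAt.conj_conj
    rw [Complex.conj_conj] at h2
    exact h2.differentiableAt
  have h2 : DifferentiableAt ℂ (fun x => conj (F (conj (x⁻¹)))) x :=
    DifferentiableAt.comp x (g := fun z => conj (F (conj z))) (f := fun x => x⁻¹) h1 (differentiableAt_inv hx)
  refine h2.congr_of_eventuallyEq (Eventually.of_forall fun z => ?_)
  simp only [map_inv₀]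

theorem Ln2_V (μ : ℂ) : IsOpen {x : ℂ | ‖μ‖ < ‖x‖ ∧ ‖x‖ * ‖μ‖ < 1} :=
  (isOpen_lt continuous_const continuous_norm).inter (isOpen_lt (continuous_norm.mul continuous_const) continuous_const)

theorem Ln2_Yd {μ : ℂ} (hμ : ‖μ‖ < 1) (y : ℂ) {g : ℕ → ℂ} (hg : Dc μ g) {x : ℂ} (h1 : ‖μ‖ ^ 2 < ‖x‖) (h2 : ‖x‖ * ‖μ‖ < 1) :
    DifferentiableAt ℂ (sY μ y g) x := by
  refine (Lk2_sY_hol hμ y hg).1.differentiableAt (IsOpen.mem_nhds ?_ ⟨h1, h2⟩)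
  exact (isOpen_lt continuous_const continuous_norm).inter (isOpen_lt (continuous_norm.mul continuous_const) continuous_const)

theorem Ln2_Td {μ : ℂ} (hμ : ‖μ‖ < 1) (y : ℂ) {g : ℕ → ℂ} (hg : Dc μ g) (l : ℝ) {x : ℂ} (h1 : ‖μ‖ < ‖x‖) (h2 : ‖x‖ * ‖μ‖ < 1) :
    DifferentiableAt ℂ (TT μ y g l) x := by
  have hμ0 := norm_nonneg μ
  have hx : 0 < ‖x‖ := hμ0.trans_lt h1
  have hx0 : x ≠ 0 := norm_pos_iff.1 hx
  have h3 : ‖μ‖ ^ 2 ≤ ‖μ‖ := by nlinarith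
  have h4 : DifferentiableAt ℂ (sY μ y g) x := Ln2_Yd hμ y hg (h3.trans_lt h1) h2
  have h5 : ‖(conj x)⁻¹‖ = ‖x‖⁻¹ := by rw [norm_inv, RCLike.norm_conj]
  have h6 : DifferentiableAt ℂ (sY μ y g) (conj x)⁻¹ := by
    refine Ln2_Yd hμ y hg ?_ ?_
    · rw [h5, ← one_div, lt_div_iff₀ hx]
      have : ‖μ‖ ^ 2 * ‖x‖ ≤ ‖μ‖ * ‖x‖ := by gcongr
      linarith [mul_comm ‖x‖ ‖μ‖]
    · rw [h5, inv_mul_lt_iff₀ hx, mul_one]
      exact h1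
  have h7 : DifferentiableAt ℂ (fun w : ℂ => w⁻¹) x := differentiableAt_inv hx0
  have h8 : DifferentiableAt ℂ (pw μ) x := by
    unfold pw
    exact differentiableAt_id.sub (h7.const_mul μ)
  have h9 : DifferentiableAt ℂ (ps μ) x := by
    unfold ps
    exact h7.sub (differentiableAt_id.const_mul _)
  unfold TT
  exact (h8.mul h9).mul ((Ln2_star h6 hx0).sub (h4.const_mul _))

/-- the function `R` -/
theorem Ln2_R {μ : ℂ} (hμ : ‖μ‖ < 1) {l : ℝ} (hl : |l| < 1) {a : ℝ} {γ β : ℂ} (h3 : ‖γ‖ + |a| + ‖β‖ = 1)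
    {y : ℂ} {g : ℕ → ℂ} (hg : Dc μ g) {C : ℝ} (hb : ∀ x : ℂ, ‖x‖ = 1 → ‖TT μ y g l x‖ ^ 2 ≤ C * |(Uw μ a γ β x).re|) :
    ∃ (V : Set ℂ) (R : ℂ → ℂ), IsOpen V ∧ V ⊆ {x : ℂ | ‖μ‖ < ‖x‖ ∧ ‖x‖ * ‖μ‖ < 1} ∧ {x : ℂ | ‖x‖ = 1} ⊆ V ∧ DifferentiableOn ℂ R V ∧
      (∀ x ∈ V, sY μ y g x * TT μ y g l x = 2 * Uw μ a γ β x * R x) ∧
      ∀ x : ℂ, ‖x‖ = 1 → ∀ t : ℝ, 0 < t → (1 - |l|) / (1 + |l|) * t ≤ ‖R x ^ 2 + t‖ := by
  have hμ0 := norm_nonneg μ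
  have hl2 : l ^ 2 < 1 := by
    rw [← sq_abs]
    nlinarith [abs_nonneg l]
  have hl3 : 0 < 1 - l ^ 2 := by linarith
  have hμ1 : 0 < 1 - ‖μ‖ := by linarith
  set V₀ : Set ℂ := {x : ℂ | ‖μ‖ < ‖x‖ ∧ ‖x‖ * ‖μ‖ < 1} with hV₀
  have hsV : {x : ℂ | ‖x‖ = 1} ⊆ V₀ := by
    intro x hx
    have hx1 : ‖x‖ = 1 := hx
    show ‖μ‖ < ‖x‖ ∧ ‖x‖ * ‖μ‖ < 1
    rw [hx1, one_mul]
    exact ⟨hμ, hμ⟩
  have hN : DifferentiableOn ℂ (fun x => x ^ 2 * (sY μ y g x * TT μ y g l x)) V₀ := by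
    intro x hx
    have h4 := Ln2_Td hμ y hg l hx.1 hx.2
    have h5 := Ln2_Yd hμ y hg (x := x) (lt_of_le_of_lt (by nlinarith) hx.1) hx.2
    exact ((differentiableAt_id.pow 2).mul (h5.mul h4)).differentiableWithinAt
  have hP := Ln1_ne hμ h3
  have hbd : ∀ x : ℂ, ‖x‖ = 1 → ‖x ^ 2 * (sY μ y g x * TT μ y g l x)‖ ≤
      |C| / ((1 - l ^ 2) * (1 - ‖μ‖) ^ 2) * ‖(Ln1_P μ a γ β).eval x‖ := by
    intro x hx
    have hx0 : x ≠ 0 := by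
      intro h
      rw [h, norm_zero] at hx
      exact zero_ne_one hx
    have e1 : ‖x ^ 2 * (sY μ y g x * TT μ y g l x)‖ = ‖sY μ y g x * TT μ y g l x‖ := by
      rw [norm_mul, norm_pow, hx, one_pow, one_mul]
    have e2 : ‖(Ln1_P μ a γ β).eval x‖ = ‖(2 : ℂ)‖ * ‖Uw μ a γ β x‖ := by
      rw [Ln1_eval μ a γ β hx0, norm_mul, norm_mul, norm_pow, hx, one_pow, mul_one]
    rw [e1, e2]
    have h4 := Ln2_YTle (y := y) (g := g) hμ hl hx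
    have h5 := hb x hx
    have h6 : |(Uw μ a γ β x).re| ≤ ‖Uw μ a γ β x‖ := Complex.abs_re_le_norm _
    have h7 : C * |(Uw μ a γ β x).re| ≤ |C| * ‖Uw μ a γ β x‖ := by
      have : C ≤ |C| := le_abs_self C
      gcongr
    have h8 : ‖(2 : ℂ)‖ = 2 := by norm_num
    rw [h8]
    refine h4.trans ?_
    rw [div_mul_eq_mul_div]
    have h9 : 0 < (1 - l ^ 2) * (1 - ‖μ‖) ^ 2 := by positivity
    rw [div_le_div_iff_of_pos_right h9]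
    have h10 := h5.trans h7
    linarith
  obtain ⟨V, R, hV, hVV, hsV', hR, hRe⟩ := Ln1_div _ _ rfl hP V₀ (Ln2_V μ) hsV _ hN hbd
  have hne : ∀ x ∈ V, x ≠ 0 := by
    intro x hx h0
    have := (hVV hx).1
    rw [h0, norm_zero] at this
    linarith
  have hYT : ∀ x ∈ V, sY μ y g x * TT μ y g l x = 2 * Uw μ a γ β x * R x := by
    intro x hx
    have h4 : x ^ 2 * (sY μ y g x * TT μ y g l x) = (Ln1_P μ a γ β).eval x * R x := hRe x hx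
    rw [Ln1_eval μ a γ β (hne x hx)] at h4
    have h5 : x ^ 2 ≠ 0 := pow_ne_zero 2 (hne x hx)
    apply mul_left_cancel₀ h5
    rw [h4]
    ring
  refine ⟨V, R, hV, hVV, hsV', hR, hYT, ?_⟩
  intro x hx t ht
  -- points with `Uw ≠ 0`
  have key : ∀ z : ℂ, ‖z‖ = 1 → Uw μ a γ β z ≠ 0 → (1 - |l|) / (1 + |l|) * t ≤ ‖R z ^ 2 + t‖ := by
    intro z hz hU
    have h4 := hYT z (hsV' hz)
    rw [Ln2_YT hμ hl hz] at h4
    have h5 := Ln2_real μ a γ β hz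
    set u : ℝ := (Uw μ a γ β z).re with hu
    have hu0 : u ≠ 0 := by
      intro h
      rw [h5, h] at hU
      exact hU Complex.ofReal_zero
    have hpw : 0 < ‖pw μ z‖ := lt_of_lt_of_le hμ1 (Ln2_pw hz)
    have hq : (1 - l ^ 2) * ‖pw μ z‖ ^ 2 ≠ 0 := by positivity
    generalize hT : TT μ y g l z = T at h4
    have hR1 : R z = ((1 / (2 * u * ((1 - l ^ 2) * ‖pw μ z‖ ^ 2)) : ℝ) : ℂ) * (((‖T‖ ^ 2 : ℝ) : ℂ) + l * T ^ 2) := by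
      rw [h5] at h4
      have hu' : (u : ℂ) ≠ 0 := by exact_mod_cast hu0
      have hq' : (((1 - l ^ 2) * ‖pw μ z‖ ^ 2 : ℝ) : ℂ) ≠ 0 := by exact_mod_cast hq
      have h8 : R z = (((‖T‖ ^ 2 : ℝ) : ℂ) + l * T ^ 2) / (((1 - l ^ 2) * ‖pw μ z‖ ^ 2 : ℝ) : ℂ) / (2 * u) := by
        rw [h4]
        field_simp
      rw [h8]
      generalize (1 - l ^ 2) * ‖pw μ z‖ ^ 2 = q at hq'
      push_cast
      field_simp
    by_cases hT0 : T = 0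
    · rw [hR1, hT0]
      have := Ln1_sector hl (τ := 0) le_rfl (v := 1) (by simp) ht
      simpa using this
    · have hTn : 0 < ‖T‖ := norm_pos_iff.2 hT0
      have hTn' : (‖T‖ : ℂ) ≠ 0 := by exact_mod_cast hTn.ne'
      have h6 := Ln1_sector hl (τ := (1 / (2 * u * ((1 - l ^ 2) * ‖pw μ z‖ ^ 2)) * ‖T‖ ^ 2) ^ 2) (by positivity) (v := T ^ 2 / (‖T‖ : ℂ) ^ 2)
        (by
          rw [norm_div, norm_pow, norm_pow, Complex.norm_real, Real.norm_eq_abs, abs_of_pos hTn]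
          field_simp) ht
      have h7 : R z ^ 2 = (((1 / (2 * u * ((1 - l ^ 2) * ‖pw μ z‖ ^ 2)) * ‖T‖ ^ 2) ^ 2 : ℝ) : ℂ) * (1 + l * (T ^ 2 / (‖T‖ : ℂ) ^ 2)) ^ 2 := by
        rw [hR1]
        generalize (1 / (2 * u * ((1 - l ^ 2) * ‖pw μ z‖ ^ 2)) : ℝ) = k
        push_cast
        field_simp
      rw [h7]
      exact h6
  have hfin := Ln1_Uw_ne hμ h3
  have h4 := Ln1_dense (z := x) hx hfin
  have hcl : closure ({x : ℂ | ‖x‖ = 1} \ {x : ℂ | x ≠ 0 ∧ Uw μ a γ β x = 0}) ⊆ {x : ℂ | ‖x‖ = 1} :=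
    closure_minimal sdiff_subset (isClosed_eq continuous_norm continuous_const)
  have hco : ContinuousOn (fun x => ‖R x ^ 2 + t‖) (closure ({x : ℂ | ‖x‖ = 1} \ {x : ℂ | x ≠ 0 ∧ Uw μ a γ β x = 0})) :=
    (((hR.continuousOn.mono (hcl.trans hsV')).pow 2).add continuousOn_const).norm
  refine le_on_closure (f := fun _ => (1 - |l|) / (1 + |l|) * t) (fun z hz => ?_) continuousOn_const hco h4
  have hz1 : ‖z‖ = 1 := hz.1
  have hz0 : z ≠ 0 := by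
    intro h
    rw [h, norm_zero] at hz1
    exact zero_ne_one hz1
  exact key z hz1 fun h => hz.2 ⟨hz0, h⟩

end LD1
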